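import Pool.Agent.KS6_80.RC.Cone

set_option autoImplicit false

/-! # The root `-n/d` of a form which is positive on a cone

`f` is a real form of degree `d` in `n` variables, positive on an open cone `U` and zero on its boundary.
If `f ^ s`, `s > -n/d`, is integrable on `U` near the points of the boundary except the origin, then
`b(-n/d) = 0` for every functional equation `b(s) f ^ s = P(s) f ^ (s + 1)`. -/

namespace Pool.Agent.KS6_80.RC

open MvPolynomial MeasureTheory Set Filter Topology Metric
open Pool.Agent.T6.H16.RA (rv cx Reg rv_cont)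
open Pool.Agent.H628R4.TP (IsBFunction)
open scoped ENNReal

variable {n : ℕ} {f : MvPolynomial (Fin n) ℝ} {U : Set (Fin n → ℝ)} {d : ℕ}

/-- `f ^ s` is integrable on `U` near `x` for all `s > s0` -/
def LocInt (f : MvPolynomial (Fin n) ℝ) (U : Set (Fin n → ℝ)) (s0 : ℝ) (x : Fin n → ℝ) : Prop :=
  ∀ s : ℝ, s0 < s → ∃ V ∈ 𝓝 x, IntegrableOn (fun x => rv f x ^ s) (U ∩ V)

theorem locInt_in (hR : Reg f U) (s0 : ℝ) {x : Fin n → ℝ} (hx : x ∈ U) : LocInt f U s0 x := by
  intro s _
  obtain ⟨r, hr, hrU⟩ := nhds_basis_closedBall.mem_iff.1 (hR.op.mem_nhds hx)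
  refine ⟨closedBall x r, closedBall_mem_nhds x hr, ?_⟩
  rw [inter_eq_right.2 hrU]
  refine ContinuousOn.integrableOn_compact (isCompact_closedBall x r) ?_
  intro y hy
  exact (((rv_cont f).continuousAt).rpow_const (Or.inl (hR.pos y (hrU hy)).ne')).continuousWithinAt

theorem locInt_out {s0 : ℝ} {x : Fin n → ℝ} (hx : x ∉ closure U) : LocInt f U s0 x := by
  intro s _
  refine ⟨(closure U)ᶜ, isClosed_closure.isOpen_compl.mem_nhds hx, ?_⟩
  have : U ∩ (closure U)ᶜ = ∅ := by
    ext y
    simp only [mem_inter_iff, mem_compl_iff, mem_empty_iff_false, iff_false, not_and, not_not]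
    exact fun hy => subset_closure hy
  rw [this]
  exact integrableOn_empty

theorem int_ann (hR : Reg f U) {s0 s : ℝ} (hs : s0 < s)
    (hloc : ∀ x ∈ closure U, x ∉ U → x ≠ 0 → LocInt f U s0 x) : Lam f U s (ann n) < ∞ := by
  have hK : IsCompact (closedBall (0 : Fin n → ℝ) 1 \ ball 0 (1 / 2)) :=
    (isCompact_closedBall _ _).diff isOpen_ball
  have h1 : IntegrableOn (fun x => rv f x ^ s) (U ∩ (closedBall (0 : Fin n → ℝ) 1 \ ball 0 (1 / 2))) := by
    refine hK.induction_on (p := fun S => IntegrableOn (fun x => rv f x ^ s) (U ∩ S)) ?_ ?_ ?_ ?_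
    · rw [inter_empty]
      exact integrableOn_empty
    · intro S T hST hT
      exact hT.mono_set (inter_subset_inter_right U hST)
    · intro S T hS hT
      rw [inter_union_distrib_left]
      exact hS.union hT
    · intro x hx
      have hx0 : x ≠ 0 := by
        rintro rfl
        exact hx.2 (mem_ball_self (by norm_num))
      have hl : LocInt f U s0 x := by
        by_cases hxU : x ∈ U
        · exact locInt_in hR s0 hxU
        · by_cases hxc : x ∈ closure U
          · exact hloc x hxc hxU hx0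
          · exact locInt_out hxc
      obtain ⟨V, hV, hi⟩ := hl s hs
      exact ⟨V, mem_nhdsWithin_of_mem_nhds hV, hi⟩
  refine (int_iff hR ann_meas s).1 (h1.mono_set (inter_subset_inter_right U ?_))
  rintro x ⟨hx1, hx2⟩
  exact ⟨hx1, fun h => hx2 (ball_subset_closedBall h)⟩

/-- **The root `-n/d`.** -/
theorem root_cone (hR : Reg f U) (hU : IsCone U) (hf : f.IsHomogeneous d) (hd : 0 < d)
    (hne : ∃ x ∈ U, x ≠ 0)
    (hloc : ∀ x ∈ closure U, x ∉ U → x ≠ 0 → LocInt f U (-(n : ℝ) / d) x)
    {b : Polynomial ℂ} (hb : IsBFunction (cx f) b) : b.eval (-(n : ℂ) / d) = 0 := by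
  have hn : 0 < n := by
    obtain ⟨x, -, hx0⟩ := hne
    rcases Nat.eq_zero_or_pos n with h | h
    · subst h
      exact absurd (Subsingleton.elim x 0) hx0
    · exact h
  have hdR : (0 : ℝ) < d := by exact_mod_cast hd
  have hf0 : cx f ≠ 0 := by
    intro h
    obtain ⟨x, hx, -⟩ := hne
    have h1 := hR.pos x hx
    have h2 : f = 0 := map_injective (algebraMap ℝ ℂ) (algebraMap ℝ ℂ).injective (by
      rw [map_zero]
      exact h)
    rw [h2] at h1
    simp [rv] at h1
  have hfin : ∀ s : ℝ, -(n : ℝ) / d < s → ∀ ρ : ℝ, 0 < ρ → Lam f U s (closedBall 0 ρ) < ∞ := by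
    intro s hs ρ hρ
    refine Lam_ball hn hR hU hf ?_ hρ (int_ann hR hs hloc)
    have h1 := (div_lt_iff₀ hdR).1 hs
    nlinarith
  have h := Pool.Agent.T6.H16.RA.root hR hf0 hb (p := 0) (ρ := 1) one_pos (s0 := -(n : ℝ) / d)
    (fun s hs => (int_iff hR measurableSet_closedBall s).2 (hfin s hs 1 one_pos)) (fun R => ?_)
  · push_cast at h
    exact h
  · refine Filter.Eventually.frequently ?_
    filter_upwards [Lam_div hR hU hf hd hne (ρ := 1 / 2) (by norm_num) (max R 0), self_mem_nhdsWithin]
      with t ht hts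
    have h1 : (∫ x in U ∩ closedBall 0 (1 / 2), rv f x ^ t) = (Lam f U t (closedBall 0 (1 / 2))).toReal := by
      rw [integral_eq_lintegral_of_nonneg_ae, Lam]
      · filter_upwards [ae_restrict_mem (hR.op.measurableSet.inter measurableSet_closedBall)] with x hx
        exact Real.rpow_nonneg (hR.pos x hx.1).le _
      · exact ((rv_cont f).measurable.pow_const t).aestronglyMeasurable
    rw [h1]
    have h2 := (hfin t hts (1 / 2) (by norm_num)).ne
    have h3 : max R 0 < (Lam f U t (closedBall 0 (1 / 2))).toReal := by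
      rw [← ENNReal.ofReal_lt_iff_lt_toReal (le_max_right _ _) h2]
      exact ht
    exact (le_max_left _ _).trans_lt h3

end Pool.Agent.KS6_80.RC
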