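import Pool.Agent.KS6_80.RC.Sub
import Pool.Agent.KS6_80.RC.Root

set_option autoImplicit false

/-! # Negative powers of polynomials near points of small multiplicity

If the multiplicity of `f` at `x` is `m`, then `|f| ^ s` is integrable near `x` for `s > -1/m`. -/

namespace Pool.Agent.KS6_80.RC

open MvPolynomial MeasureTheory Set Filter Topology Metric
open Pool.Agent.T6.H16.RA (rv cx Reg rv_cont)
open scoped ENNReal

variable {n : ℕ}

/-- the derivative in the direction `v` -/
noncomputable def Dv (v : Fin n → ℝ) (f : MvPolynomial (Fin n) ℝ) : MvPolynomial (Fin n) ℝ :=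
  ∑ i, C (v i) * pderiv i f

theorem hasDeriv_line (v y : Fin n → ℝ) (f : MvPolynomial (Fin n) ℝ) (t : ℝ) :
    HasDerivAt (fun t : ℝ => eval (y + t • v) f) (eval (y + t • v) (Dv v f)) t := by
  induction f using MvPolynomial.induction_on with
  | C a =>
    simp only [eval_C, Dv, pderiv_C, mul_zero, Finset.sum_const_zero, map_zero]
    exact hasDerivAt_const _ _
  | add p q hp hq =>
    have h := hp.add hq
    simp only [Dv, map_add, mul_add, Finset.sum_add_distrib] at h ⊢
    exact h
  | mul_X p i hp =>
    have h1 : HasDerivAt (fun t : ℝ => (y + t • v) i) (v i) t := by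
      have h2 : HasDerivAt (fun t : ℝ => y i + t * v i) (v i) t := by
        have := ((hasDerivAt_id t).mul_const (v i)).const_add (y i)
        simpa using this
      exact h2
    have h := hp.mul h1
    have e : eval (y + t • v) (Dv v (p * X i)) =
        eval (y + t • v) (Dv v p) * (y + t • v) i + eval (y + t • v) p * v i := by
      classical
      simp only [Dv, map_sum, map_mul, eval_C, Derivation.leibniz, smul_eq_mul, pderiv_X, map_add,
        eval_X, mul_add, Finset.sum_add_distrib]
      rw [add_comm, Finset.sum_mul]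
      congr 1
      · refine Finset.sum_congr rfl fun j _ => ?_
        ring
      · rw [Finset.sum_eq_single i]
        · simp
          ring
        · intro j _ hj
          rw [Pi.single_eq_of_ne (Ne.symm hj)]
          simp
        · intro h
          exact absurd (Finset.mem_univ i) h
    rw [e]
    simp only [map_mul, eval_X]
    exact h

/-- the sequence of the derivatives on a line -/
noncomputable def gs (f : MvPolynomial (Fin n) ℝ) (v y : Fin n → ℝ) (i : ℕ) (t : ℝ) : ℝ :=
  eval (y + t • v) ((Dv v)^[i] f)

theorem gs_deriv (f : MvPolynomial (Fin n) ℝ) (v y : Fin n → ℝ) (i : ℕ) (t : ℝ) :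
    HasDerivAt (gs f v y i) (gs f v y (i + 1) t) t := by
  have h := hasDeriv_line v y ((Dv v)^[i] f) t
  unfold gs
  rw [Function.iterate_succ_apply']
  exact h

/-- averaging over lines -/
theorem average (φ : (Fin n → ℝ) → ℝ≥0∞) (hφ : Measurable φ) (v x : Fin n → ℝ) {r r0 : ℝ}
    (hr0 : 0 < r0) (hv : r0 * ‖v‖ ≤ r) {C : ℝ≥0∞} (hC : C < ∞)
    (h : ∀ y ∈ closedBall x (2 * r), ∫⁻ t in Icc (-r0) r0, φ (y + t • v) ≤ C) :
    ∫⁻ y in closedBall x r, φ y < ∞ := by
  have h1 : ∀ t ∈ Icc (-r0) r0, ∫⁻ y in closedBall x r, φ y ≤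
      ∫⁻ y in closedBall x (2 * r), φ (y + t • v) := by
    intro t ht
    have h2 : ∫⁻ y in closedBall x r, φ y =
        ∫⁻ y in (fun y => y + t • v) ⁻¹' closedBall x r, φ (y + t • v) := by
      exact ((measurePreserving_add_right volume (t • v)).setLIntegral_comp_preimage
        measurableSet_closedBall hφ).symm
    rw [h2]
    refine lintegral_mono_set fun y hy => ?_
    simp only [mem_preimage, mem_closedBall, dist_eq_norm] at hy ⊢
    have h3 : ‖t • v‖ ≤ r := by
      rw [norm_smul, Real.norm_eq_abs]
      refine le_trans (mul_le_mul_of_nonneg_right (abs_le.2 ht) (norm_nonneg _)) hv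
    calc ‖y - x‖ = ‖(y + t • v - x) - t • v‖ := by
          congr 1
          abel
      _ ≤ ‖y + t • v - x‖ + ‖t • v‖ := norm_sub_le _ _
      _ ≤ 2 * r := by linarith
  have h4 : ENNReal.ofReal (2 * r0) * ∫⁻ y in closedBall x r, φ y ≤
      C * volume (closedBall x (2 * r)) := by
    calc ENNReal.ofReal (2 * r0) * ∫⁻ y in closedBall x r, φ y
        = ∫⁻ t in Icc (-r0) r0, ∫⁻ y in closedBall x r, φ y := by
          rw [setLIntegral_const, Real.volume_Icc, mul_comm]
          congr 2
          ring
      _ ≤ ∫⁻ t in Icc (-r0) r0, ∫⁻ y in closedBall x (2 * r), φ (y + t • v) :=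
          setLIntegral_mono' measurableSet_Icc h1
      _ = ∫⁻ y in closedBall x (2 * r), ∫⁻ t in Icc (-r0) r0, φ (y + t • v) := by
          refine lintegral_lintegral_swap ?_
          refine Measurable.aemeasurable ?_
          exact hφ.comp (by fun_prop)
      _ ≤ ∫⁻ y in closedBall x (2 * r), C := setLIntegral_mono' measurableSet_closedBall h
      _ = C * volume (closedBall x (2 * r)) := setLIntegral_const _ _
  have h5 : C * volume (closedBall x (2 * r)) < ∞ :=
    ENNReal.mul_lt_top hC (isCompact_closedBall x (2 * r)).measure_lt_top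
  have h6 := h4.trans_lt h5
  by_contra h7
  rw [not_lt, top_le_iff] at h7
  rw [h7, ENNReal.mul_top] at h6
  · exact lt_irrefl _ h6
  · rw [Ne, ENNReal.ofReal_eq_zero, not_le]
    linarith

theorem int_near (f : MvPolynomial (Fin n) ℝ) (v x : Fin n → ℝ) (m : ℕ)
    (hm : eval x ((Dv v)^[m + 1] f) ≠ 0) {θ : ℝ} (h0 : 0 < θ) (h1 : θ * (m + 1) < 1) :
    ∃ r : ℝ, 0 < r ∧ ∫⁻ y in closedBall x r, ENNReal.ofReal (|eval y f| ^ (-θ)) < ∞ := by
  set h := (Dv v)^[m + 1] f with hh
  have hc : Continuous fun y => |eval y h| := (rv_cont h).abs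
  set c : ℝ := |eval x h| / 2 with hcd
  have hc0 : 0 < c := by
    have := abs_pos.2 hm
    positivity
  have h2 : ∀ᶠ y in 𝓝 x, c < |eval y h| := by
    refine hc.continuousAt.eventually (lt_mem_nhds ?_)
    rw [hcd]
    linarith
  obtain ⟨R, hR, hRb⟩ := nhds_basis_closedBall.mem_iff.1 h2
  set r : ℝ := R / 3 with hr
  have hr0 : 0 < r := by positivity
  set r0 : ℝ := r / (‖v‖ + 1) with hr0d
  have hr00 : 0 < r0 := by positivity
  have hv : r0 * ‖v‖ ≤ r := by
    rw [hr0d, div_mul_eq_mul_div, div_le_iff₀ (by positivity)]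
    nlinarith [norm_nonneg v]
  obtain ⟨C, hC, hint⟩ := sub_int m h0 h1 hc0 (2 * r0)
  refine ⟨r, hr0, average (fun y => ENNReal.ofReal (|eval y f| ^ (-θ))) ?_ v x hr00 hv hC ?_⟩
  · exact (((rv_cont f).abs.measurable).pow_const _).ennreal_ofReal
  · intro y hy
    have h3 := hint (gs f v y) (gs_deriv f v y) (Icc (-r0) r0) ordConnected_Icc measurableSet_Icc
      (by
        rw [Real.volume_Icc]
        refine le_of_eq ?_
        congr 1
        ring) ?_
    · exact h3
    · intro t ht
      have h4 : y + t • v ∈ closedBall x R := by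
        rw [mem_closedBall, dist_eq_norm] at hy ⊢
        have h5 : ‖t • v‖ ≤ r := by
          rw [norm_smul, Real.norm_eq_abs]
          exact le_trans (mul_le_mul_of_nonneg_right (abs_le.2 ht) (norm_nonneg _)) hv
        calc ‖y + t • v - x‖ = ‖(y - x) + t • v‖ := by
              congr 1
              abel
          _ ≤ ‖y - x‖ + ‖t • v‖ := norm_add_le _ _
          _ ≤ R := by rw [hr] at hy h5; linarith
      exact (hRb h4).le

/-- the multiplicity of `f` at `x` is at most `m` -/
def MultLe (f : MvPolynomial (Fin n) ℝ) (x : Fin n → ℝ) (m : ℕ) : Prop :=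
  ∃ k ≤ m, homogeneousComponent k (aeval (fun i => X i + C (x i)) f : MvPolynomial (Fin n) ℝ) ≠ 0

theorem iter_line (f : MvPolynomial (Fin n) ℝ) (v x : Fin n → ℝ) (k : ℕ) :
    eval x ((Dv v)^[k] f) =
      k.factorial * eval v (homogeneousComponent k
        (aeval (fun i => X i + C (x i)) f : MvPolynomial (Fin n) ℝ)) := by
  classical
  set F : MvPolynomial (Fin n) ℝ := aeval (fun i => X i + C (x i)) f with hF
  -- the polynomial of the restriction to the line
  set p : Polynomial ℝ := ∑ j ∈ Finset.range (F.totalDegree + 1),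
    Polynomial.C (eval v (homogeneousComponent j F)) * Polynomial.X ^ j with hp
  have hpe : ∀ t : ℝ, p.eval t = eval (x + t • v) f := by
    intro t
    have h1 : eval (x + t • v) f = eval (t • v) F := by
      rw [hF]
      have h2 : eval (t • v) (aeval (fun i => X i + C (x i)) f : MvPolynomial (Fin n) ℝ) =
          eval (fun i => eval (t • v) (X i + C (x i) : MvPolynomial (Fin n) ℝ)) f := by
        rw [← MvPolynomial.coe_aeval_eq_eval (t • v)]
        simp only [RingHom.coe_coe]
        rw [← AlgHom.comp_apply, MvPolynomial.comp_aeval]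
        simp only [MvPolynomial.aeval_eq_eval]
      rw [h2]
      congr 1
      congr 1
      funext i
      simp [add_comm]
    rw [h1, hp, Polynomial.eval_finsetSum]
    conv_rhs => rw [← sum_homogeneousComponent F, map_sum]
    refine Finset.sum_congr rfl fun j _ => ?_
    rw [eval_smul_hom (homogeneousComponent_isHomogeneous j F), Polynomial.eval_mul,
      Polynomial.eval_C, Polynomial.eval_pow, Polynomial.eval_X, mul_comm]
  -- the sequences agree
  have key : ∀ i : ℕ, ∀ t : ℝ, gs f v x i t = (Polynomial.derivative^[i] p).eval t := by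
    intro i
    induction i with
    | zero =>
      intro t
      rw [Function.iterate_zero_apply, hpe]
      rfl
    | succ i ih =>
      intro t
      have h1 := gs_deriv f v x i t
      have h2 : gs f v x i = fun t => (Polynomial.derivative^[i] p).eval t := funext ih
      rw [h2] at h1
      rw [Function.iterate_succ_apply']
      exact h1.unique (Polynomial.hasDerivAt _ t)
  have h1 := key k 0
  unfold gs at h1
  rw [zero_smul, add_zero] at h1
  rw [h1, ← Polynomial.coeff_zero_eq_eval_zero, Polynomial.coeff_iterate_derivative, zero_add,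
    Nat.descFactorial_self, nsmul_eq_mul]
  congr 1
  rw [hp, Polynomial.finsetSum_coeff]
  simp only [Polynomial.coeff_C_mul, Polynomial.coeff_X_pow]
  by_cases hk : k < F.totalDegree + 1
  · rw [Finset.sum_eq_single k]
    · simp
    · intro j _ hj
      rw [if_neg (Ne.symm hj), mul_zero]
    · intro h
      exact absurd (Finset.mem_range.2 hk) h
  · rw [Finset.sum_eq_zero]
    · rw [homogeneousComponent_eq_zero k F (by omega), map_zero]
    · intro j hj
      rw [if_neg (by
        rintro rfl
        exact hk (Finset.mem_range.1 hj)), mul_zero]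

/-- **Points of small multiplicity.** -/
theorem locInt_mult {f : MvPolynomial (Fin n) ℝ} {U : Set (Fin n → ℝ)} {d m : ℕ} (hd : 0 < d)
    (hR : Reg f U) {x : Fin n → ℝ} (hx : MultLe f x m) (hm : n * m ≤ d) :
    LocInt f U (-(n : ℝ) / d) x := by
  intro s hs
  have hdR : (0 : ℝ) < d := by exact_mod_cast hd
  by_cases hs0 : 0 ≤ s
  · refine ⟨closedBall x 1, closedBall_mem_nhds x one_pos, ?_⟩
    refine IntegrableOn.mono_set (t := closedBall x 1) ?_ inter_subset_right
    refine ContinuousOn.integrableOn_compact (isCompact_closedBall x 1) ?_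
    exact ((rv_cont f).rpow_const fun y => Or.inr hs0).continuousOn
  push Not at hs0
  obtain ⟨k, hk, hne⟩ := hx
  obtain ⟨v, hv⟩ : ∃ v : Fin n → ℝ, eval v (homogeneousComponent k
      (aeval (fun i => X i + C (x i)) f : MvPolynomial (Fin n) ℝ)) ≠ 0 := by
    by_contra h
    push Not at h
    apply hne
    refine MvPolynomial.funext fun v => ?_
    rw [h v, map_zero]
  have hv2 : eval x ((Dv v)^[k] f) ≠ 0 := by
    rw [iter_line]
    exact mul_ne_zero (by exact_mod_cast k.factorial_ne_zero) hv
  rcases k with _ | k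
  · -- the polynomial does not vanish at `x`
    rw [Function.iterate_zero_apply] at hv2
    have hc : ContinuousAt (fun y => rv f y ^ s) x :=
      ((rv_cont f).continuousAt).rpow_const (Or.inl hv2)
    have h1 : ∀ᶠ y in 𝓝 x, rv f y ≠ 0 := (rv_cont f).continuousAt.eventually_ne hv2
    obtain ⟨r, hr, hrb⟩ := nhds_basis_closedBall.mem_iff.1 h1
    refine ⟨closedBall x r, closedBall_mem_nhds x hr, ?_⟩
    refine IntegrableOn.mono_set (t := closedBall x r) ?_ inter_subset_right
    refine ContinuousOn.integrableOn_compact (isCompact_closedBall x r) fun y hy => ?_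
    exact ((rv_cont f).continuousAt.rpow_const (Or.inl (hrb hy))).continuousWithinAt
  · have h1 : -s * ((k : ℝ) + 1) < 1 := by
      have h2 : (n : ℝ) * ((k : ℝ) + 1) ≤ d := by
        have : n * (k + 1) ≤ d := (Nat.mul_le_mul_left n hk).trans hm
        exact_mod_cast this
      have h3 : -s < n / d := by
        rw [neg_div] at hs
        linarith
      calc -s * ((k : ℝ) + 1) < n / d * ((k : ℝ) + 1) := by
            exact mul_lt_mul_of_pos_right h3 (by positivity)
        _ = (n * ((k : ℝ) + 1)) / d := by ring
        _ ≤ 1 := (div_le_one hdR).2 h2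
    obtain ⟨r, hr, hint⟩ := int_near f v x k hv2 (θ := -s) (by linarith) h1
    refine ⟨closedBall x r, closedBall_mem_nhds x hr, ?_⟩
    rw [int_iff hR measurableSet_closedBall]
    refine lt_of_le_of_lt ?_ hint
    rw [Lam]
    refine (le_of_eq ?_).trans (lintegral_mono_set (inter_subset_right (s := U)))
    refine setLIntegral_congr_fun (hR.op.measurableSet.inter measurableSet_closedBall) fun y hy => ?_
    show ENNReal.ofReal (rv f y ^ s) = ENNReal.ofReal (|eval y f| ^ (- -s))
    rw [neg_neg, show eval y f = rv f y from rfl, abs_of_pos (hR.pos y hy.1)]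

end Pool.Agent.KS6_80.RC
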