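import Pool.Graph.R_pool_sql_team_seeded_47a924f7.T6.H16.RA.A5

set_option autoImplicit false

/-! # The integral of a power of a form over a cone in real space

`f > 0` is a form of degree `d` on an open cone `U` in `ℝ ^ n`. If `f ^ s`, `s > -n/d`, is integrable
near the points of the boundary of `U` except the origin, then it is integrable near the origin,
and the integral tends to infinity for `s → -n/d`. -/

namespace Pool.Agent.KS6_80.RC

open MvPolynomial MeasureTheory Set Filter Topology Metric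
open Pool.Agent.T6.H16.RA (rv cx Reg rv_cont)
open scoped ENNReal

variable {n : ℕ}

/-- a cone: a set which is stable under multiplication by positive real numbers -/
def IsCone (U : Set (Fin n → ℝ)) : Prop := ∀ x ∈ U, ∀ t : ℝ, 0 < t → t • x ∈ U

theorem eval_smul_hom {R σ : Type*} [CommSemiring R] {f : MvPolynomial σ R} {d : ℕ}
    (hf : f.IsHomogeneous d) (t : R) (x : σ → R) : eval (t • x) f = t ^ d * eval x f := by
  classical
  rw [eval_eq, eval_eq, Finset.mul_sum]
  refine Finset.sum_congr rfl fun m hm => ?_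
  have h1 : ∑ i ∈ m.support, m i = d := by
    have h2 := hf (mem_support_iff.1 hm)
    rw [Finsupp.weight_apply, Finsupp.sum] at h2
    simpa using h2
  simp only [Pi.smul_apply, smul_eq_mul, mul_pow, Finset.prod_mul_distrib]
  rw [Finset.prod_pow_eq_pow_sum, h1]
  ring

theorem rv_smul {f : MvPolynomial (Fin n) ℝ} {d : ℕ} (hf : f.IsHomogeneous d) (t : ℝ)
    (x : Fin n → ℝ) : rv f (t • x) = t ^ d * rv f x := eval_smul_hom hf t x

theorem lint_smul {t : ℝ} (ht : 0 < t) {B : Set (Fin n → ℝ)} (hB : MeasurableSet B)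
    (g : (Fin n → ℝ) → ℝ≥0∞) :
    ∫⁻ x in (fun x => t • x) '' B, g x = ENNReal.ofReal (t ^ n) * ∫⁻ x in B, g (t • x) := by
  have h := lintegral_image_eq_lintegral_abs_det_fderiv_mul volume hB
    (f := fun x : Fin n → ℝ => t • x) (f' := fun _ => t • ContinuousLinearMap.id ℝ (Fin n → ℝ))
    (fun x _ => ((hasFDerivAt_id x).const_smul t).hasFDerivWithinAt)
    (fun x _ y _ h => smul_right_injective _ ht.ne' h) g
  rw [h, ← lintegral_const_mul' _ _ ENNReal.ofReal_ne_top]
  refine lintegral_congr fun x => ?_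
  congr 2
  have h1 : (t • ContinuousLinearMap.id ℝ (Fin n → ℝ)).det = t ^ n := by
    rw [ContinuousLinearMap.det]
    simp
  rw [h1, abs_of_pos (pow_pos ht n)]

/-- the annulus -/
def ann (n : ℕ) : Set (Fin n → ℝ) := closedBall 0 1 \ closedBall 0 (1 / 2)

theorem ann_meas : MeasurableSet (ann n) := measurableSet_closedBall.diff measurableSet_closedBall

/-- the integral of `f ^ s` over `U ∩ A` -/
noncomputable def Lam (f : MvPolynomial (Fin n) ℝ) (U : Set (Fin n → ℝ)) (s : ℝ)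
    (A : Set (Fin n → ℝ)) : ℝ≥0∞ := ∫⁻ x in U ∩ A, ENNReal.ofReal (rv f x ^ s)

variable {f : MvPolynomial (Fin n) ℝ} {U : Set (Fin n → ℝ)} {d : ℕ}

theorem Lam_scale (hR : Reg f U) (hU : IsCone U) (hf : f.IsHomogeneous d) (s : ℝ) {c : ℝ} (hc : 0 < c)
    {A : Set (Fin n → ℝ)} (hA : MeasurableSet A) :
    Lam f U s ((fun x => c • x) '' A) = ENNReal.ofReal (c ^ ((n : ℝ) + d * s)) * Lam f U s A := by
  have h1 : U ∩ (fun x => c • x) '' A = (fun x => c • x) '' (U ∩ A) := by
    ext x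
    constructor
    · rintro ⟨hx, y, hy, rfl⟩
      refine ⟨y, ⟨?_, hy⟩, rfl⟩
      have := hU _ hx c⁻¹ (inv_pos.2 hc)
      simpa [smul_smul, inv_mul_cancel₀ hc.ne'] using this
    · rintro ⟨y, ⟨hy, hyA⟩, rfl⟩
      exact ⟨hU y hy c hc, y, hyA, rfl⟩
  rw [Lam, h1, lint_smul hc (hR.op.measurableSet.inter hA), Lam]
  have h2 : ∫⁻ x in U ∩ A, ENNReal.ofReal (rv f (c • x) ^ s) =
      ∫⁻ x in U ∩ A, ENNReal.ofReal (c ^ (d * s)) * ENNReal.ofReal (rv f x ^ s) := by
    refine setLIntegral_congr_fun (hR.op.measurableSet.inter hA) fun x hx => ?_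
    show ENNReal.ofReal (rv f (c • x) ^ s) = ENNReal.ofReal (c ^ (d * s)) * ENNReal.ofReal (rv f x ^ s)
    rw [rv_smul hf, Real.mul_rpow (by positivity) (hR.pos x hx.1).le,
      ENNReal.ofReal_mul (by positivity), ← Real.rpow_natCast_mul hc.le]
  rw [h2, lintegral_const_mul' _ _ ENNReal.ofReal_ne_top, ← mul_assoc,
    ← ENNReal.ofReal_mul (by positivity), Real.rpow_add hc, Real.rpow_natCast]

theorem ball_eq {ρ : ℝ} (hρ : 0 < ρ) :
    closedBall (0 : Fin n → ℝ) ρ ⊆ {0} ∪ ⋃ k : ℕ, (fun x => ((1 / 2 : ℝ) ^ k * ρ) • x) '' ann n := by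
  intro x hx
  by_cases h0 : x = 0
  · left
    exact h0
  · right
    rw [mem_closedBall_zero_iff] at hx
    have hxp : 0 < ‖x‖ := norm_pos_iff.2 h0
    obtain ⟨k, hk1, hk2⟩ := exists_nat_pow_near_of_lt_one (x := ‖x‖ / ρ) (y := (1 / 2 : ℝ))
      (by positivity) ((div_le_one hρ).2 hx) (by norm_num) (by norm_num)
    refine mem_iUnion.2 ⟨k, ((1 / 2 : ℝ) ^ k * ρ)⁻¹ • x, ?_, ?_⟩
    · have hc : 0 < (1 / 2 : ℝ) ^ k * ρ := by positivity
      have hn : ‖((1 / 2 : ℝ) ^ k * ρ)⁻¹ • x‖ = ((1 / 2 : ℝ) ^ k * ρ)⁻¹ * ‖x‖ := by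
        rw [norm_smul, Real.norm_of_nonneg (by positivity)]
      constructor
      · rw [mem_closedBall_zero_iff, hn, inv_mul_le_iff₀ hc, mul_one]
        rwa [div_le_iff₀ hρ] at hk2
      · rw [mem_closedBall_zero_iff, hn, not_le, lt_inv_mul_iff₀ hc]
        rw [lt_div_iff₀ hρ, pow_succ] at hk1
        linarith
    · simp only [smul_smul]
      rw [mul_inv_cancel₀ (by positivity), one_smul]

theorem Lam_ball (hn : 0 < n) (hR : Reg f U) (hU : IsCone U) (hf : f.IsHomogeneous d) {s : ℝ}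
    (hs : 0 < (n : ℝ) + d * s) {ρ : ℝ} (hρ : 0 < ρ) (hA : Lam f U s (ann n) < ∞) :
    Lam f U s (closedBall 0 ρ) < ∞ := by
  have h1 : Lam f U s (closedBall 0 ρ) ≤
      Lam f U s {0} + ∑' k : ℕ, Lam f U s ((fun x => ((1 / 2 : ℝ) ^ k * ρ) • x) '' ann n) := by
    refine (lintegral_mono_set (inter_subset_inter_right U (ball_eq hρ))).trans ?_
    rw [inter_union_distrib_left, inter_iUnion]
    refine (lintegral_union_le _ _ _).trans (add_le_add le_rfl ?_)
    exact lintegral_iUnion_le _ _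
  have : Nonempty (Fin n) := ⟨⟨0, hn⟩⟩
  have h2 : Lam f U s {0} = 0 := by
    refine setLIntegral_measure_zero _ _ (measure_mono_null inter_subset_right ?_)
    exact measure_singleton _
  have h3 : ∀ k : ℕ, Lam f U s ((fun x => ((1 / 2 : ℝ) ^ k * ρ) • x) '' ann n) =
      (ENNReal.ofReal (ρ ^ ((n : ℝ) + d * s)) * Lam f U s (ann n)) *
        ENNReal.ofReal ((1 / 2 : ℝ) ^ ((n : ℝ) + d * s)) ^ k := by
    intro k
    rw [Lam_scale hR hU hf s (by positivity) ann_meas, Real.mul_rpow (by positivity) hρ.le,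
      ENNReal.ofReal_mul (by positivity), ← ENNReal.ofReal_pow (by positivity),
      ← Real.rpow_natCast_mul (by norm_num), ← Real.rpow_mul_natCast (by norm_num), mul_comm (k : ℝ)]
    ring
  refine h1.trans_lt ?_
  rw [h2, zero_add]
  simp only [h3]
  rw [ENNReal.tsum_mul_left]
  refine ENNReal.mul_lt_top (ENNReal.mul_lt_top ENNReal.ofReal_lt_top hA) ?_
  rw [ENNReal.tsum_geometric]
  refine ENNReal.inv_lt_top.2 (tsub_pos_of_lt ?_)
  rw [ENNReal.ofReal_lt_one]
  exact Real.rpow_lt_one (by norm_num) (by norm_num) hs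

theorem int_iff (hR : Reg f U) {A : Set (Fin n → ℝ)} (hA : MeasurableSet A) (s : ℝ) :
    IntegrableOn (fun x => rv f x ^ s) (U ∩ A) ↔ Lam f U s A < ∞ := by
  have hm : Measurable fun x => rv f x ^ s := (rv_cont f).measurable.pow_const s
  rw [IntegrableOn, Integrable, and_iff_right hm.aestronglyMeasurable, hasFiniteIntegral_iff_ofReal]
  · rfl
  · filter_upwards [ae_restrict_mem (hR.op.measurableSet.inter hA)] with x hx
    exact Real.rpow_nonneg (hR.pos x hx.1).le _

theorem ann_scaled {c : ℝ} (hc : 0 < c) :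
    (fun x : Fin n → ℝ => c • x) '' ann n = closedBall 0 c \ closedBall 0 (c / 2) := by
  ext x
  constructor
  · rintro ⟨y, ⟨hy1, hy2⟩, rfl⟩
    rw [mem_closedBall_zero_iff] at hy1 hy2
    have hn : ‖c • y‖ = c * ‖y‖ := by rw [norm_smul, Real.norm_of_nonneg hc.le]
    constructor
    · rw [mem_closedBall_zero_iff, hn]
      nlinarith
    · rw [mem_closedBall_zero_iff, hn]
      intro h
      apply hy2
      by_contra h3
      push Not at h3
      have : c * (1 / 2) < c * ‖y‖ := (mul_lt_mul_iff_right₀ hc).2 h3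
      linarith
  · rintro ⟨h1, h2⟩
    rw [mem_closedBall_zero_iff] at h1 h2
    have hn : ‖c⁻¹ • x‖ = c⁻¹ * ‖x‖ := by rw [norm_smul, Real.norm_of_nonneg (by positivity)]
    refine ⟨c⁻¹ • x, ⟨?_, ?_⟩, ?_⟩
    · rw [mem_closedBall_zero_iff, hn, inv_mul_le_iff₀ hc, mul_one]
      exact h1
    · rw [mem_closedBall_zero_iff, hn, inv_mul_le_iff₀ hc]
      intro h
      apply h2
      linarith
    · simp only [smul_smul]
      rw [mul_inv_cancel₀ hc.ne', one_smul]

/-- the divergence at `-n/d` -/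
theorem Lam_div (hR : Reg f U) (hU : IsCone U) (hf : f.IsHomogeneous d) (hd : 0 < d)
    (hne : ∃ x ∈ U, x ≠ 0) {ρ : ℝ} (hρ : 0 < ρ) (R : ℝ) :
    ∀ᶠ t in 𝓝[>] (-(n : ℝ) / d), ENNReal.ofReal R < Lam f U t (closedBall 0 ρ) := by
  obtain ⟨x, hx, hx0⟩ := hne
  have hn : 0 < n := by
    rcases Nat.eq_zero_or_pos n with h | h
    · subst h
      exact absurd (Subsingleton.elim x 0) hx0
    · exact h
  have hdR : (0 : ℝ) < d := by exact_mod_cast hd
  have hnR : (0 : ℝ) < n := by exact_mod_cast hn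
  -- a bound for `f`
  obtain ⟨M, hM⟩ := ((isCompact_closedBall (0 : Fin n → ℝ) 1).image (rv_cont f)).bddAbove
  set M' := max M 1 with hM'
  have hM1 : 1 ≤ M' := le_max_right _ _
  -- the volume
  set V : Set (Fin n → ℝ) := U ∩ (ball 0 1 \ closedBall 0 (1 / 2)) with hV
  have hVo : IsOpen V := hR.op.inter (isOpen_ball.sdiff isClosed_closedBall)
  have hVne : V.Nonempty := by
    have hxn : 0 < ‖x‖ := norm_pos_iff.2 hx0
    refine ⟨(3 / 4 * ‖x‖⁻¹) • x, hU x hx _ (by positivity), ?_⟩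
    have hnn : ‖(3 / 4 * ‖x‖⁻¹) • x‖ = 3 / 4 := by
      rw [norm_smul, Real.norm_of_nonneg (by positivity), mul_assoc, inv_mul_cancel₀ hxn.ne', mul_one]
    constructor
    · rw [mem_ball_zero_iff, hnn]
      norm_num
    · rw [mem_closedBall_zero_iff, hnn]
      norm_num
  have hVpos : 0 < volume V := hVo.measure_pos volume hVne
  have hVsub : V ⊆ U ∩ ann n := by
    rintro y ⟨hy, hy1, hy2⟩
    exact ⟨hy, ball_subset_closedBall hy1, hy2⟩
  set c : ℝ≥0∞ := ENNReal.ofReal (M' ^ (-(n : ℝ) / d)) * volume V with hc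
  have hcpos : 0 < c := ENNReal.mul_pos (by
    rw [Ne, ENNReal.ofReal_eq_zero, not_le]
    positivity) hVpos.ne'
  have hlow : ∀ t : ℝ, -(n : ℝ) / d < t → t < 0 → c ≤ Lam f U t (ann n) := by
    intro t ht ht0
    refine le_trans ?_ (lintegral_mono_set hVsub)
    rw [hc, ← setLIntegral_const]
    refine setLIntegral_mono' hVo.measurableSet fun y hy => ENNReal.ofReal_le_ofReal ?_
    have hfy : rv f y ≤ M' := (hM ⟨y, ball_subset_closedBall hy.2.1, rfl⟩).trans (le_max_left _ _)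
    calc M' ^ (-(n : ℝ) / d) ≤ M' ^ t := Real.rpow_le_rpow_of_exponent_le hM1 ht.le
      _ ≤ rv f y ^ t := Real.rpow_le_rpow_of_nonpos (hR.pos y hy.1) hfy ht0.le
  -- the number of pieces
  obtain ⟨m, hm⟩ : ∃ m : ℕ, ENNReal.ofReal R < m * (ENNReal.ofReal (1 / 2) * c) := by
    have hc2 : ENNReal.ofReal (1 / 2) * c ≠ 0 := (ENNReal.mul_pos (by
      rw [Ne, ENNReal.ofReal_eq_zero, not_le]
      norm_num) hcpos.ne').ne'
    obtain ⟨m, hm⟩ := ENNReal.exists_nat_mul_gt hc2 (ENNReal.ofReal_ne_top (r := R))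
    exact ⟨m, hm⟩
  have hpow : ∀ k : ℕ, ∀ᶠ t in 𝓝[>] (-(n : ℝ) / d),
      1 / 2 ≤ ((1 / 2 : ℝ) ^ k * ρ) ^ ((n : ℝ) + d * t) := by
    intro k
    have h0 : 0 < (1 / 2 : ℝ) ^ k * ρ := by positivity
    have h1 : ContinuousAt (fun t : ℝ => ((1 / 2 : ℝ) ^ k * ρ) ^ ((n : ℝ) + d * t)) (-(n : ℝ) / d) :=
      (continuous_const.rpow (by fun_prop) fun _ => Or.inl h0.ne').continuousAt
    have h2 : ((1 / 2 : ℝ) ^ k * ρ) ^ ((n : ℝ) + d * (-(n : ℝ) / d)) = 1 := by
      have : (n : ℝ) + d * (-(n : ℝ) / d) = 0 := by field_simp; ring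
      rw [this, Real.rpow_zero]
    have h3 := h1.tendsto
    rw [h2] at h3
    have h4 := h3.eventually (lt_mem_nhds (show (1 / 2 : ℝ) < 1 by norm_num))
    exact (h4.filter_mono nhdsWithin_le_nhds).mono fun t ht => ht.le
  have hneg : ∀ᶠ t in 𝓝[>] (-(n : ℝ) / d), t < 0 := by
    refine Filter.Eventually.filter_mono nhdsWithin_le_nhds (gt_mem_nhds ?_)
    rw [neg_div, neg_lt_zero]
    positivity
  filter_upwards [(Finset.range m).eventually_all.2 fun k _ => hpow k, hneg, self_mem_nhdsWithin]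
    with t ht ht0 hts
  refine hm.trans_le ?_
  have h1 : ∀ k ∈ Finset.range m, ENNReal.ofReal (1 / 2) * c ≤
      ∫⁻ x in U ∩ (fun x => ((1 / 2 : ℝ) ^ k * ρ) • x) '' ann n, ENNReal.ofReal (rv f x ^ t) := by
    intro k hk
    have h2 := Lam_scale hR hU hf t (c := (1 / 2 : ℝ) ^ k * ρ) (by positivity) ann_meas
    rw [Lam] at h2
    rw [h2]
    exact mul_le_mul' (ENNReal.ofReal_le_ofReal (ht k hk)) (hlow t hts ht0)
  calc (m : ℝ≥0∞) * (ENNReal.ofReal (1 / 2) * c)
      = ∑ k ∈ Finset.range m, ENNReal.ofReal (1 / 2) * c := by simp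
    _ ≤ ∑ k ∈ Finset.range m, ∫⁻ x in U ∩ (fun x => ((1 / 2 : ℝ) ^ k * ρ) • x) '' ann n,
          ENNReal.ofReal (rv f x ^ t) := Finset.sum_le_sum h1
    _ = ∫⁻ x in ⋃ k ∈ Finset.range m, U ∩ (fun x => ((1 / 2 : ℝ) ^ k * ρ) • x) '' ann n,
          ENNReal.ofReal (rv f x ^ t) := by
        refine (lintegral_biUnion_finset ?_ ?_ _).symm
        · have key : ∀ k l : ℕ, k < l → Disjoint
              (U ∩ (fun x => ((1 / 2 : ℝ) ^ k * ρ) • x) '' ann n)
              (U ∩ (fun x => ((1 / 2 : ℝ) ^ l * ρ) • x) '' ann n) := by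
            intro k l hkl
            rw [ann_scaled (by positivity), ann_scaled (by positivity), Set.disjoint_left]
            rintro y ⟨-, -, hy⟩ ⟨-, hy2, -⟩
            apply hy
            rw [mem_closedBall_zero_iff] at hy2 ⊢
            refine hy2.trans ?_
            have h5 : (1 / 2 : ℝ) ^ l ≤ (1 / 2) ^ (k + 1) :=
              pow_le_pow_of_le_one (by norm_num) (by norm_num) hkl
            rw [pow_succ] at h5
            nlinarith
          intro k _ l _ hkl
          rcases lt_or_gt_of_ne hkl with h | h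
          · exact key k l h
          · exact (key l k h).symm
        · intro k _
          rw [ann_scaled (by positivity)]
          exact hR.op.measurableSet.inter (measurableSet_closedBall.diff measurableSet_closedBall)
    _ ≤ Lam f U t (closedBall 0 ρ) := by
        refine lintegral_mono_set (iUnion₂_subset fun k _ => inter_subset_inter_right U ?_)
        rw [ann_scaled (by positivity)]
        refine sdiff_subset.trans (closedBall_subset_closedBall ?_)
        have : (1 / 2 : ℝ) ^ k ≤ 1 := pow_le_one₀ (by norm_num) (by norm_num)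
        nlinarith

end Pool.Agent.KS6_80.RC
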