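import Pool.Agent.KS6_80.RC.Top
import Pool.Graph.R_pool_sql_team_seeded_620a6dc7.helper748_eq_.Main
import Pool.Graph.R_pool_sql_team_seeded_620a6dc7.helper748_mc_.FanThm

set_option autoImplicit false

/-! # Equivariant motivic zeta functions of cones with normal crossings -/

namespace Pool.Agent.KS6_80.RC

open MvPolynomial Pool.Agent.W574.MO Pool.Agent.H628R4.TP Pool.Agent.Helper748.EQ
open Pool.Agent.KS6_80.SN (Snc root_k)

/-- `Z` is (of the form of) the equivariant motivic zeta function of `f = ∏ F_i ^ (n_i)`, a form of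
degree `d` in `N` variables, over `X_s = {f = 0}` and with the action of `μ`, where the hypersurfaces
`F_i = 0` of the projective space are smooth and cross each other transversally. `M` is a
commutative ring with a unit `L`, with `M = 𝓜^μ_{X_s}` as the main example. The blow-up of the origin
is an embedded resolution, with the exceptional divisor `E`, the projective space, with the numbers
`(d, N)`, and the strict transforms of the `F_i = 0`, with the numbers `(n_i, 1)`. The formula of Denef and
Loeser has the terms `c'_I` for the strata `E ∩ F_I°`, `F_I°` the set of the points of the projective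
space at which exactly the `F_i`, `i ∈ I`, vanish, and the terms `c_I` for the punctured cones over
the `F_I°`; `c_I` and `c'_I` are the classes of the coverings of the strata times powers of `L - 1`;
here they are arbitrary elements of `M`. `gf L a n` is `L⁻ⁿ Tᵃ / (1 - L⁻ⁿ Tᵃ)` for `a ≥ 1`, and `0` for
`a = 0`. -/
def SncEqZeta {M : Type} [CommRing M] (L : Mˣ) {κ : Type} [Fintype κ] (N d : ℕ) (n : κ → ℕ)
    (Z : PowerSeries M) : Prop :=
  ∃ c c' : Finset κ → M, Z = ∑ I : Finset κ,
    (PowerSeries.C (c I) + PowerSeries.C (c' I) * gf L d N) * ∏ i ∈ I, gf L (n i) 1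

theorem snc_eq {M : Type} [CommRing M] (L : Mˣ) {N : ℕ} {κ : Type} [Fintype κ] (hN : 2 ≤ N)
    (F : κ → MvPolynomial (Fin N) ℂ)
    (e n : κ → ℕ) (hF : ∀ i, (F i).IsHomogeneous (e i)) (he : ∀ i, 0 < e i)
    (hF0 : ∀ i, F i ≠ 0) (hS : Snc F) (d : ℕ) (b : Polynomial ℂ)
    (hb : IsBFunction (∏ i, F i ^ n i) b) (hr : b.eval (-(N : ℂ) / d) = 0) (Z : PowerSeries M)
    (hZ : SncEqZeta L N d n Z) : Z ∈ DenRing L (RootPair b) := by
  classical
  obtain ⟨c, c', rfl⟩ := hZ
  have hd3 : gf L d N ∈ DenRing L (RootPair b) := gf_mem (by omega) fun _ => hr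
  refine Subring.sum_mem _ fun I _ => Subring.mul_mem _ (Subring.add_mem _ (C_mem _)
    (Subring.mul_mem _ (C_mem _) hd3)) (Subring.prod_mem _ fun i _ => gf_mem le_rfl fun h => ?_)
  exact root_k hN F hS e n he hF hF0 b hb i (by omega)

end Pool.Agent.KS6_80.RC
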