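import Pool.Graph.R_pool_sql_team_seeded_47a924f7.T6.H16.RA.B2
import Pool.Agent.KS6_80.RC.Mult

set_option autoImplicit false

/-! # Negative powers of polynomials near normal crossings

If `f = g ∏ F_i ^ e_i` near `x`, where the `F_i` vanish at `x` and have independent gradients, and
`g(x) ≠ 0`, then `|f| ^ s` is integrable near `x` if `e_i s > -1` for all `i`. -/

namespace Pool.Agent.KS6_80.RC

open MvPolynomial MeasureTheory Set Filter Topology Metric
open Pool.Agent.T6.H16.RA (rv cx Reg rv_cont)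
open scoped ENNReal ContDiff

variable {n : ℕ}

theorem eval_contDiff (p : MvPolynomial (Fin n) ℝ) : ContDiff ℝ ∞ fun x : Fin n → ℝ => eval x p := by
  induction p using MvPolynomial.induction_on with
  | C a =>
    simp only [eval_C]
    exact contDiff_const
  | add p q hp hq =>
    simp only [map_add]
    exact hp.add hq
  | mul_X p i hp =>
    simp only [map_mul, eval_X]
    exact hp.mul (contDiff_apply ℝ ℝ i)

/-- the gradient -/
noncomputable def grad (p : MvPolynomial (Fin n) ℝ) (x : Fin n → ℝ) : Fin n → ℝ :=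
  fun j => eval x (pderiv j p)

theorem fderiv_grad (p : MvPolynomial (Fin n) ℝ) (x v : Fin n → ℝ) :
    fderiv ℝ (fun x : Fin n → ℝ => eval x p) x v = grad p x ⬝ᵥ v := by
  have h1 := ((eval_contDiff p).differentiable (by simp) x).hasFDerivAt
  have h2 := hasDeriv_line v x p 0
  have h3 : HasDerivAt (fun t : ℝ => x + t • v) v 0 := by
    have := ((hasDerivAt_id (0 : ℝ)).smul_const v).const_add x
    simpa using this
  have h4 : HasDerivAt (fun t : ℝ => eval (x + t • v) p)
      (fderiv ℝ (fun x : Fin n → ℝ => eval x p) x v) 0 := by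
    have h5 : HasFDerivAt (fun x : Fin n → ℝ => eval x p)
        (fderiv ℝ (fun x : Fin n → ℝ => eval x p) x) (x + (0 : ℝ) • v) := by
      rw [zero_smul, add_zero]
      exact h1
    exact h5.comp_hasDerivAt 0 h3
  rw [h4.unique h2, zero_smul, add_zero, Dv, map_sum, dotProduct]
  refine Finset.sum_congr rfl fun i _ => ?_
  rw [map_mul, eval_C, mul_comm]
  rfl

theorem exists_dual {r : ℕ} (a : Fin r → Fin n → ℝ) (ha : LinearIndependent ℝ a) :
    ∃ w : Fin r → Fin n → ℝ, ∀ i k, a i ⬝ᵥ w k = if i = k then 1 else 0 := by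
  classical
  let T : (Fin n → ℝ) →ₗ[ℝ] (Fin r → ℝ) :=
    { toFun := fun x k => a k ⬝ᵥ x
      map_add' := fun x y => by
        funext k
        exact dotProduct_add _ _ _
      map_smul' := fun c x => by
        funext k
        exact dotProduct_smul _ _ _ }
  have hT : Function.Surjective T := by
    rw [← LinearMap.range_eq_top]
    by_contra h
    obtain ⟨φ, hφ, hle⟩ := Submodule.exists_le_ker_of_lt_top _ (lt_top_iff_ne_top.2 h)
    apply hφ
    have h1 : ∀ y : Fin n → ℝ, (∑ i, φ (Pi.single i 1) • a i) ⬝ᵥ y = 0 := by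
      intro y
      have h2 : φ (T y) = 0 := hle ⟨y, rfl⟩
      rw [sum_dotProduct]
      have h3 : T y = ∑ i, (a i ⬝ᵥ y) • (Pi.single i (1 : ℝ) : Fin r → ℝ) := by
        funext k
        simp only [Finset.sum_apply, Pi.smul_apply, Pi.single_apply, smul_eq_mul, mul_ite, mul_one,
          mul_zero]
        rw [Finset.sum_ite_eq]
        simp
        rfl
      rw [h3, map_sum] at h2
      rw [← h2]
      refine Finset.sum_congr rfl fun i _ => ?_
      rw [smul_dotProduct, map_smul, smul_eq_mul, smul_eq_mul, mul_comm]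
    have h4 : ∑ i, φ (Pi.single i 1) • a i = 0 := dotProduct_self_eq_zero.1 (h1 _)
    have h5 := Fintype.linearIndependent_iff.1 ha _ h4
    refine LinearMap.ext fun z => ?_
    have h6 : z = ∑ i, z i • (Pi.single i (1 : ℝ) : Fin r → ℝ) := by
      funext k
      simp only [Finset.sum_apply, Pi.smul_apply, Pi.single_apply, smul_eq_mul, mul_ite, mul_one,
        mul_zero]
      rw [Finset.sum_ite_eq]
      simp
    rw [h6, map_sum, LinearMap.zero_apply]
    refine Finset.sum_eq_zero fun i _ => ?_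
    rw [map_smul, h5 i, smul_zero]
  choose w hw using fun k : Fin r => hT (Pi.single k 1)
  refine ⟨w, fun i k => ?_⟩
  have h1 := congrFun (hw k) i
  rw [Pi.single_apply] at h1
  exact h1

theorem indep_box {r : ℕ} (v : Fin r → Fin n → ℝ) (hv : LinearIndependent ℝ v) {θ : ℝ}
    (h1 : θ < 1) (R : ℝ) :
    ∫⁻ z in closedBall (0 : Fin n → ℝ) R, ENNReal.ofReal (∏ i, |v i ⬝ᵥ z| ^ (-θ)) < ⊤ := by
  have h2 := (Pool.Agent.T6.H16.RA.indep_int v hv h1 0 R).2
  rw [hasFiniteIntegral_iff_ofReal] at h2
  · exact h2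
  · exact Eventually.of_forall fun z => Finset.prod_nonneg fun i _ => by positivity

/-- **Points with normal crossings.** -/
theorem locInt_snc {f : MvPolynomial (Fin n) ℝ} {U : Set (Fin n → ℝ)} {d : ℕ} (hd : 0 < d)
    (hR : Reg f U) {x : Fin n → ℝ} {r : ℕ} (F : Fin r → MvPolynomial (Fin n) ℝ) (e : Fin r → ℕ)
    (g : MvPolynomial (Fin n) ℝ) (hf : f = g * ∏ i, F i ^ e i) (hg : eval x g ≠ 0)
    (hF : ∀ i, eval x (F i) = 0) (hlin : LinearIndependent ℝ fun i => grad (F i) x)
    (he0 : ∀ i, 0 < e i) (he : ∀ i, n * e i ≤ d) : LocInt f U (-(n : ℝ) / d) x := by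
  classical
  intro s hs
  have hdR : (0 : ℝ) < d := by exact_mod_cast hd
  by_cases hs0 : 0 ≤ s
  · refine ⟨closedBall x 1, closedBall_mem_nhds x one_pos, ?_⟩
    refine IntegrableOn.mono_set (t := closedBall x 1) ?_ inter_subset_right
    refine ContinuousOn.integrableOn_compact (isCompact_closedBall x 1) ?_
    exact ((rv_cont f).rpow_const fun y => Or.inr hs0).continuousOn
  push Not at hs0
  -- the exponent
  have hnd : -s < n / d := by
    rw [neg_div] at hs
    linarith
  have hn0 : (0 : ℝ) < n / d := by linarith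
  have hnR : (0 : ℝ) < n := by
    by_contra h
    exact absurd hn0 (not_lt.2 (div_nonpos_of_nonpos_of_nonneg (not_lt.1 h) hdR.le))
  set θ : ℝ := -s * (d / n) with hθ
  have hθ1 : θ < 1 := by
    rw [hθ]
    calc -s * (d / n) < n / d * (d / n) := mul_lt_mul_of_pos_right hnd (by positivity)
      _ = 1 := by field_simp
  have hθe : ∀ i, -θ ≤ e i * s := by
    intro i
    have h1 : (n : ℝ) * e i ≤ d := by exact_mod_cast he i
    have h2 : (e i : ℝ) ≤ d / n := by
      rw [le_div_iff₀ hnR]
      linarith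
    rw [hθ]
    nlinarith
  -- the coordinates
  obtain ⟨w, hw⟩ := exists_dual _ hlin
  set Ψ : (Fin n → ℝ) → (Fin n → ℝ) := fun y => y - x +
    ∑ k, (eval y (F k) - grad (F k) x ⬝ᵥ (y - x)) • w k with hΨ
  have ha : ∀ i y, grad (F i) x ⬝ᵥ Ψ y = eval y (F i) := by
    intro i y
    rw [hΨ]
    simp only [dotProduct_add, dotProduct_sum, dotProduct_smul, hw, smul_eq_mul, mul_ite, mul_one,
      mul_zero]
    rw [Finset.sum_ite_eq]
    simp
  have hdot : ∀ k, ContDiff ℝ ∞ fun y : Fin n → ℝ => grad (F k) x ⬝ᵥ (y - x) := by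
    intro k
    unfold dotProduct
    refine ContDiff.sum fun j _ => contDiff_const.mul ?_
    exact (contDiff_apply ℝ ℝ j).sub contDiff_const
  have hsm : ContDiff ℝ ∞ Ψ := by
    refine (contDiff_id.sub contDiff_const).add (ContDiff.sum fun k _ => ?_)
    exact ((eval_contDiff (F k)).sub (hdot k)).smul contDiff_const
  have hder : fderiv ℝ Ψ x = ContinuousLinearMap.id ℝ (Fin n → ℝ) := by
    refine ContinuousLinearMap.ext fun v => ?_
    have h1 := (hsm.differentiable (by simp) x).hasFDerivAt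
    have h3 : HasDerivAt (fun t : ℝ => x + t • v) v 0 := by
      have := ((hasDerivAt_id (0 : ℝ)).smul_const v).const_add x
      simpa using this
    have h4 : HasDerivAt (fun t : ℝ => Ψ (x + t • v)) (fderiv ℝ Ψ x v) 0 := by
      have h5 : HasFDerivAt Ψ (fderiv ℝ Ψ x) (x + (0 : ℝ) • v) := by
        rw [zero_smul, add_zero]
        exact h1
      exact h5.comp_hasDerivAt 0 h3
    have h6 : ∀ k, HasDerivAt (fun t : ℝ => eval (x + t • v) (F k) -
        grad (F k) x ⬝ᵥ (x + t • v - x)) 0 0 := by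
      intro k
      have h7 := hasDeriv_line v x (F k) 0
      have h8 : HasDerivAt (fun t : ℝ => grad (F k) x ⬝ᵥ (x + t • v - x)) (grad (F k) x ⬝ᵥ v) 0 := by
        have h9 : (fun t : ℝ => grad (F k) x ⬝ᵥ (x + t • v - x)) =
            fun t : ℝ => t * (grad (F k) x ⬝ᵥ v) := by
          funext t
          rw [add_sub_cancel_left, dotProduct_smul, smul_eq_mul]
        rw [h9]
        simpa using (hasDerivAt_id (0 : ℝ)).mul_const (grad (F k) x ⬝ᵥ v)
      have h10 := h7.sub h8
      have h11 : eval (x + (0 : ℝ) • v) (Dv v (F k)) - grad (F k) x ⬝ᵥ v = 0 := by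
        rw [zero_smul, add_zero, Dv, map_sum, dotProduct, sub_eq_zero]
        refine Finset.sum_congr rfl fun i _ => ?_
        rw [map_mul, eval_C, mul_comm]
        rfl
      rw [h11] at h10
      exact h10
    have h12 : HasDerivAt (fun t : ℝ => Ψ (x + t • v)) (v + ∑ k, (0 : ℝ) • w k) 0 := by
      have h13 : HasDerivAt (fun t : ℝ => x + t • v - x) v 0 := h3.sub_const x
      have h14 := HasDerivAt.fun_sum (u := Finset.univ) fun k _ => (h6 k).smul_const (w k)
      exact h13.add h14
    rw [h4.unique h12]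
    simp
  have hstr : HasStrictFDerivAt Ψ
      ((ContinuousLinearEquiv.refl ℝ (Fin n → ℝ) : (Fin n → ℝ) ≃L[ℝ] (Fin n → ℝ)) :
        (Fin n → ℝ) →L[ℝ] (Fin n → ℝ)) x := by
    have h1 := (hsm.contDiffAt (x := x)).hasStrictFDerivAt (by simp)
    rw [hder] at h1
    exact h1
  have hsrc : (hstr.toOpenPartialHomeomorph Ψ).source ∈ 𝓝 x :=
    (hstr.toOpenPartialHomeomorph Ψ).open_source.mem_nhds
      hstr.mem_toOpenPartialHomeomorph_source
  have hinj : InjOn Ψ (hstr.toOpenPartialHomeomorph Ψ).source := by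
    have := (hstr.toOpenPartialHomeomorph Ψ).injOn
    exact this
  have hdet : ∀ᶠ y in 𝓝 x, 1 / 2 < |(fderiv ℝ Ψ y).det| := by
    have h1 : Continuous fun y => |(fderiv ℝ Ψ y).det| :=
      (ContinuousLinearMap.continuous_det.comp (hsm.continuous_fderiv (by simp))).abs
    refine h1.continuousAt.eventually (lt_mem_nhds ?_)
    show 1 / 2 < |(fderiv ℝ Ψ x).det|
    rw [hder]
    simp [ContinuousLinearMap.det]
    norm_num
  have hF1 : ∀ i, ∀ᶠ y in 𝓝 x, |eval y (F i)| < 1 := by
    intro i
    refine (rv_cont (F i)).abs.continuousAt.eventually (gt_mem_nhds ?_)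
    show |eval x (F i)| < 1
    rw [hF i, abs_zero]
    exact one_pos
  set c : ℝ := |eval x g| / 2 with hc
  have hc0 : 0 < c := by
    have := abs_pos.2 hg
    positivity
  have hg1 : ∀ᶠ y in 𝓝 x, c < |eval y g| := by
    refine (rv_cont g).abs.continuousAt.eventually (lt_mem_nhds ?_)
    show c < |eval x g|
    have := abs_pos.2 hg
    rw [hc]
    linarith
  obtain ⟨ρ, hρ, hρb⟩ := nhds_basis_closedBall.mem_iff.1
    ((Filter.Eventually.and (p := fun y => y ∈ (hstr.toOpenPartialHomeomorph Ψ).source) hsrc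
      hdet).and ((eventually_all.2 hF1).and hg1))
  refine ⟨closedBall x ρ, closedBall_mem_nhds x hρ, ?_⟩
  rw [int_iff hR measurableSet_closedBall]
  -- the integral in the new coordinates
  obtain ⟨R, hRb⟩ := ((isCompact_closedBall x ρ).image hsm.continuous).isBounded.subset_closedBall 0
  have hbox := indep_box (fun i => grad (F i) x) hlin hθ1 R
  have h1 : ∫⁻ y in closedBall x ρ, ENNReal.ofReal (∏ i, |eval y (F i)| ^ (-θ)) < ⊤ := by
    have h2 := lintegral_image_eq_lintegral_abs_det_fderiv_mul volume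
      (measurableSet_closedBall (x := x) (ε := ρ)) (f := Ψ) (f' := fderiv ℝ Ψ)
      (fun y _ => ((hsm.differentiable (by simp) y).hasFDerivAt).hasFDerivWithinAt)
      (hinj.mono fun y hy => (hρb hy).1.1)
      (fun z => ENNReal.ofReal (∏ i, |grad (F i) x ⬝ᵥ z| ^ (-θ)))
    have h3 : ∫⁻ z in Ψ '' closedBall x ρ, ENNReal.ofReal (∏ i, |grad (F i) x ⬝ᵥ z| ^ (-θ)) < ⊤ :=
      (lintegral_mono_set hRb).trans_lt hbox
    rw [h2] at h3
    have h4 : ENNReal.ofReal (1 / 2) *
        ∫⁻ y in closedBall x ρ, ENNReal.ofReal (∏ i, |eval y (F i)| ^ (-θ)) < ⊤ := by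
      rw [← lintegral_const_mul' _ _ ENNReal.ofReal_ne_top]
      refine lt_of_le_of_lt (setLIntegral_mono' measurableSet_closedBall fun y hy => ?_) h3
      simp only [ha]
      exact mul_le_mul' (ENNReal.ofReal_le_ofReal (hρb hy).1.2.le) le_rfl
    by_contra h5
    rw [not_lt, top_le_iff] at h5
    rw [h5, ENNReal.mul_top] at h4
    · exact lt_irrefl _ h4
    · rw [Ne, ENNReal.ofReal_eq_zero, not_le]
      norm_num
  have h2 : Lam f U s (closedBall x ρ) ≤ ENNReal.ofReal (c ^ s) *
      ∫⁻ y in closedBall x ρ, ENNReal.ofReal (∏ i, |eval y (F i)| ^ (-θ)) := by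
    rw [← lintegral_const_mul' _ _ ENNReal.ofReal_ne_top, Lam]
    refine le_trans (setLIntegral_mono' (hR.op.measurableSet.inter measurableSet_closedBall)
      fun y hy => ?_) (lintegral_mono_set inter_subset_right)
    rw [← ENNReal.ofReal_mul (by positivity)]
    refine ENNReal.ofReal_le_ofReal ?_
    have hfy := hR.pos y hy.1
    have hb := hρb hy.2
    have e1 : rv f y = |eval y g| * ∏ i, |eval y (F i)| ^ e i := by
      rw [← abs_of_pos hfy]
      show |eval y f| = _
      have e2 : ∏ i, |(eval y) (F i ^ e i)| = ∏ i, |(eval y) (F i)| ^ e i := by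
        refine Finset.prod_congr rfl fun i _ => ?_
        rw [map_pow, abs_pow]
      rw [hf, map_mul, map_prod, abs_mul, Finset.abs_prod, e2]
    have hFy : ∀ i, 0 < |eval y (F i)| := by
      intro i
      refine abs_pos.2 fun h => ?_
      rw [e1] at hfy
      have : ∏ i, |eval y (F i)| ^ e i = 0 := Finset.prod_eq_zero (Finset.mem_univ i) (by
        rw [h, abs_zero, zero_pow (he0 i).ne'])
      rw [this, mul_zero] at hfy
      exact lt_irrefl _ hfy
    rw [e1, Real.mul_rpow (abs_nonneg _) (Finset.prod_nonneg fun i _ => by positivity),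
      ← Real.finsetProd_rpow _ _ fun i _ => by positivity]
    refine mul_le_mul (Real.rpow_le_rpow_of_nonpos hc0 hb.2.2.le hs0.le) ?_
      (Finset.prod_nonneg fun i _ => by positivity) (by positivity)
    refine Finset.prod_le_prod (fun i _ => by positivity) fun i _ => ?_
    rw [← Real.rpow_natCast, ← Real.rpow_mul (abs_nonneg _)]
    exact Real.rpow_le_rpow_of_exponent_ge (hFy i) (hb.2.1 i).le (hθe i)
  exact h2.trans_lt (ENNReal.mul_lt_top ENNReal.ofReal_lt_top h1)

end Pool.Agent.KS6_80.RC
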