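import Mathlib

set_option autoImplicit false

/-! # Sublevel sets

A function on an interval whose derivative of order `m` is at least `c` in absolute value is at most
`ε` in absolute value only on a set of measure at most `C (ε / c) ^ (1 / m)`. So its negative powers of
exponent less than `1 / m` are integrable, uniformly. -/

namespace Pool.Agent.KS6_80.RC

open MeasureTheory Set Filter Topology Metric
open scoped ENNReal

theorem vol_le_of_dist {s : Set ℝ} {r : ℝ} (h : ∀ x ∈ s, ∀ y ∈ s, |x - y| ≤ r) :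
    volume s ≤ ENNReal.ofReal r := by
  refine (Real.volume_le_diam s).trans ?_
  refine Metric.ediam_le fun x hx y hy => ?_
  rw [edist_dist, Real.dist_eq]
  exact ENNReal.ofReal_le_ofReal (h x hx y hy)

theorem mvt_lower {h h' : ℝ → ℝ} (hh : ∀ t, HasDerivAt h (h' t) t) {I : Set ℝ} (hI : I.OrdConnected)
    {c : ℝ} (hc : ∀ t ∈ I, c ≤ |h' t|) {a b : ℝ} (ha : a ∈ I) (hb : b ∈ I) :
    c * |a - b| ≤ |h a - h b| := by
  rcases lt_trichotomy a b with hab | hab | hab
  · obtain ⟨t, ht, h1⟩ := exists_hasDerivAt_eq_slope h h' hab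
      (fun t _ => (hh t).continuousAt.continuousWithinAt) (fun t _ => hh t)
    have h2 := hc t (hI.out ha hb ⟨ht.1.le, ht.2.le⟩)
    have h3 : h b - h a = h' t * (b - a) := by
      rw [h1, div_mul_cancel₀ _ (sub_ne_zero.2 hab.ne')]
    rw [abs_sub_comm (h a), h3, abs_mul, abs_sub_comm a b]
    exact mul_le_mul_of_nonneg_right h2 (abs_nonneg _)
  · rw [hab]
    simp
  · obtain ⟨t, ht, h1⟩ := exists_hasDerivAt_eq_slope h h' hab
      (fun t _ => (hh t).continuousAt.continuousWithinAt) (fun t _ => hh t)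
    have h2 := hc t (hI.out hb ha ⟨ht.1.le, ht.2.le⟩)
    have h3 : h a - h b = h' t * (a - b) := by
      rw [h1, div_mul_cancel₀ _ (sub_ne_zero.2 hab.ne')]
    rw [h3, abs_mul]
    exact mul_le_mul_of_nonneg_right h2 (abs_nonneg _)

/-- the measure of sublevel sets -/
theorem sub_meas (m : ℕ) : ∃ C : ℝ, 0 ≤ C ∧ ∀ (g : ℕ → ℝ → ℝ)
    (_ : ∀ i t, HasDerivAt (g i) (g (i + 1) t) t) (I : Set ℝ) (_ : I.OrdConnected) (c : ℝ) (_ : 0 < c)
    (_ : ∀ t ∈ I, c ≤ |g (m + 1) t|) (ε : ℝ) (_ : 0 < ε),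
    volume {t ∈ I | |g 0 t| ≤ ε} ≤ ENNReal.ofReal (C * (ε / c) ^ (1 / ((m : ℝ) + 1))) := by
  induction m with
  | zero =>
    refine ⟨2, by norm_num, fun g hg I hI c hc h ε hε => ?_⟩
    refine vol_le_of_dist fun x hx y hy => ?_
    have h1 := mvt_lower (hg 0) hI h hx.1 hy.1
    have h2 : |g 0 x - g 0 y| ≤ ε + ε := (abs_sub _ _).trans (add_le_add hx.2 hy.2)
    rw [Nat.cast_zero, zero_add, div_one, Real.rpow_one, mul_div_assoc', le_div_iff₀ hc]
    linarith
  | succ m ih =>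
    obtain ⟨C, hC, ih⟩ := ih
    refine ⟨2 + 2 * C, by positivity, fun g hg I hI c hc h ε hε => ?_⟩
    set δ : ℝ := (ε / c) ^ (1 / (((m + 1 : ℕ) : ℝ) + 1)) with hδ
    have hεc : 0 < ε / c := by positivity
    have hδ0 : 0 < δ := Real.rpow_pos_of_pos hεc _
    set J : Set ℝ := {t ∈ I | |g (m + 1) t| ≤ c * δ} with hJ
    have hJd : ∀ x ∈ J, ∀ y ∈ J, |x - y| ≤ 2 * δ := by
      intro x hx y hy
      have h1 := mvt_lower (hg (m + 1)) hI h hx.1 hy.1
      have h2 : |g (m + 1) x - g (m + 1) y| ≤ c * δ + c * δ :=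
        (abs_sub _ _).trans (add_le_add hx.2 hy.2)
      have h3 : c * |x - y| ≤ c * (2 * δ) := by linarith
      exact le_of_mul_le_mul_left h3 hc
    set A : Set ℝ := {t ∈ I | ∀ j ∈ J, t < j} with hA
    set B : Set ℝ := {t ∈ I | ∀ j ∈ J, j < t} with hB
    have hAo : A.OrdConnected := by
      refine ⟨fun x hx y hy t ht => ⟨hI.out hx.1 hy.1 ht, fun j hj => ht.2.trans_lt (hy.2 j hj)⟩⟩
    have hBo : B.OrdConnected := by
      refine ⟨fun x hx y hy t ht => ⟨hI.out hx.1 hy.1 ht, fun j hj => (hx.2 j hj).trans_le ht.1⟩⟩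
    have hAc : ∀ t ∈ A, c * δ ≤ |g (m + 1) t| := by
      intro t ht
      by_contra h1
      exact lt_irrefl t (ht.2 t ⟨ht.1, (not_le.1 h1).le⟩)
    have hBc : ∀ t ∈ B, c * δ ≤ |g (m + 1) t| := by
      intro t ht
      by_contra h1
      exact lt_irrefl t (ht.2 t ⟨ht.1, (not_le.1 h1).le⟩)
    have hcd : 0 < c * δ := by positivity
    have h1 := ih g hg A hAo (c * δ) hcd hAc ε hε
    have h2 := ih g hg B hBo (c * δ) hcd hBc ε hε
    have h3 : (ε / (c * δ)) ^ (1 / ((m : ℝ) + 1)) = δ := by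
      have h4 : ε / (c * δ) = (ε / c) ^ (1 - 1 / (((m + 1 : ℕ) : ℝ) + 1)) := by
        rw [Real.rpow_sub hεc, Real.rpow_one, ← hδ, div_div]
      rw [h4, ← Real.rpow_mul hεc.le, hδ]
      congr 1
      push_cast
      field_simp
      ring
    rw [h3] at h1 h2
    have h5 : {t ∈ I | |g 0 t| ≤ ε} ⊆ (I \ (A ∪ B)) ∪ ({t ∈ A | |g 0 t| ≤ ε} ∪ {t ∈ B | |g 0 t| ≤ ε}) := by
      intro t ht
      by_cases hta : t ∈ A
      · exact Or.inr (Or.inl ⟨hta, ht.2⟩)
      · by_cases htb : t ∈ B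
        · exact Or.inr (Or.inr ⟨htb, ht.2⟩)
        · exact Or.inl ⟨ht.1, fun h => h.elim hta htb⟩
    have h6 : volume (I \ (A ∪ B)) ≤ ENNReal.ofReal (2 * δ) := by
      refine vol_le_of_dist fun x hx y hy => ?_
      have key : ∀ t ∈ I \ (A ∪ B), ∃ j ∈ J, ∃ k ∈ J, j ≤ t ∧ t ≤ k := by
        intro t ht
        have h7 : t ∉ A := fun h => ht.2 (Or.inl h)
        have h8 : t ∉ B := fun h => ht.2 (Or.inr h)
        simp only [hA, hB, mem_ofPred_eq, not_and, not_forall, not_lt] at h7 h8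
        obtain ⟨j, hj, hj2⟩ := h7 ht.1
        obtain ⟨k, hk, hk2⟩ := h8 ht.1
        exact ⟨j, hj, k, hk, hj2, hk2⟩
      obtain ⟨j, hj, k, hk, h9, h10⟩ := key x hx
      obtain ⟨j', hj', k', hk', h11, h12⟩ := key y hy
      have h13 := abs_le.1 (hJd k hk j' hj')
      have h14 := abs_le.1 (hJd k' hk' j hj)
      rw [abs_le]
      constructor <;> linarith
    calc volume {t ∈ I | |g 0 t| ≤ ε} ≤ volume (I \ (A ∪ B)) +
          (volume {t ∈ A | |g 0 t| ≤ ε} + volume {t ∈ B | |g 0 t| ≤ ε}) :=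
          (measure_mono h5).trans ((measure_union_le _ _).trans
            (add_le_add le_rfl (measure_union_le _ _)))
      _ ≤ ENNReal.ofReal (2 * δ) + (ENNReal.ofReal (C * δ) + ENNReal.ofReal (C * δ)) :=
          add_le_add h6 (add_le_add h1 h2)
      _ = ENNReal.ofReal ((2 + 2 * C) * δ) := by
          rw [← ENNReal.ofReal_add (by positivity) (by positivity),
            ← ENNReal.ofReal_add (by positivity) (by positivity)]
          congr 1
          ring

/-- the integrals of negative powers -/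
theorem sub_int (m : ℕ) {θ : ℝ} (h0 : 0 < θ) (h1 : θ * (m + 1) < 1) {c : ℝ} (hc : 0 < c) (L : ℝ) :
    ∃ C : ℝ≥0∞, C < ∞ ∧ ∀ (g : ℕ → ℝ → ℝ) (_ : ∀ i t, HasDerivAt (g i) (g (i + 1) t) t) (I : Set ℝ)
      (_ : I.OrdConnected) (_ : MeasurableSet I) (_ : volume I ≤ ENNReal.ofReal L)
      (_ : ∀ t ∈ I, c ≤ |g (m + 1) t|),
      ∫⁻ t in I, ENNReal.ofReal (|g 0 t| ^ (-θ)) ≤ C := by
  obtain ⟨C, hC, hsub⟩ := sub_meas m
  set q : ℝ := 1 / ((m : ℝ) + 1) with hq
  have hq0 : 0 < q := by positivity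
  have hθq : θ < q := by
    rw [hq, lt_div_iff₀ (by positivity)]
    exact h1
  refine ⟨ENNReal.ofReal θ * ((∫⁻ t in Ioc (0 : ℝ) 1, ENNReal.ofReal L * ENNReal.ofReal (t ^ (θ - 1))) +
    ∫⁻ t in Ioi (1 : ℝ), ENNReal.ofReal (C * (c ^ (-q) * t ^ (θ - q - 1)))), ?_, ?_⟩
  · refine ENNReal.mul_lt_top ENNReal.ofReal_lt_top (ENNReal.add_lt_top.2 ⟨?_, ?_⟩)
    · rw [lintegral_const_mul' _ _ ENNReal.ofReal_ne_top]
      refine ENNReal.mul_lt_top ENNReal.ofReal_lt_top ?_
      have h2 : IntegrableOn (fun t : ℝ => t ^ (θ - 1)) (Ioc 0 1) := by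
        have := intervalIntegral.intervalIntegrable_rpow' (a := 0) (b := 1) (r := θ - 1) (by linarith)
        rwa [intervalIntegrable_iff_integrableOn_Ioc_of_le zero_le_one] at this
      have h3 := h2.2
      rw [hasFiniteIntegral_iff_ofReal] at h3
      · exact h3
      · filter_upwards [ae_restrict_mem measurableSet_Ioc] with t ht
        exact Real.rpow_nonneg ht.1.le _
    · have h2 : IntegrableOn (fun t : ℝ => C * (c ^ (-q) * t ^ (θ - q - 1))) (Ioi 1) :=
        ((integrableOn_Ioi_rpow_of_lt (by linarith) one_pos).const_mul _).const_mul _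
      have h3 := h2.2
      rw [hasFiniteIntegral_iff_ofReal] at h3
      · exact h3
      · filter_upwards [ae_restrict_mem measurableSet_Ioi] with t ht
        have : (0 : ℝ) < t := one_pos.trans ht
        positivity
  · intro g hg I hI hIm hIL h
    have hgc : Continuous (g 0) := continuous_iff_continuousAt.2 fun t => (hg 0 t).continuousAt
    have e : ∀ t, |g 0 t| ^ (-θ) = (|g 0 t|⁻¹) ^ θ := by
      intro t
      rw [Real.inv_rpow (abs_nonneg _), Real.rpow_neg (abs_nonneg _)]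
    simp only [e]
    rw [lintegral_rpow_eq_lintegral_meas_lt_mul (volume.restrict I)
      (Eventually.of_forall fun t => inv_nonneg.2 (abs_nonneg _))
      (hgc.abs.measurable.inv.aemeasurable) h0]
    refine mul_le_mul' le_rfl ?_
    rw [← Ioc_union_Ioi_eq_Ioi (zero_le_one' ℝ), lintegral_union measurableSet_Ioi
      (Set.disjoint_left.2 fun x hx hx' => not_lt.2 hx.2 hx')]
    refine add_le_add (setLIntegral_mono' measurableSet_Ioc fun t ht => ?_)
      (setLIntegral_mono' measurableSet_Ioi fun t ht => ?_)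
    · refine mul_le_mul' ?_ le_rfl
      refine (measure_mono (subset_univ _)).trans ?_
      rw [Measure.restrict_apply_univ]
      exact hIL
    · have ht0 : (0 : ℝ) < t := one_pos.trans ht
      have h2 : (volume.restrict I) {a | t < |g 0 a|⁻¹} ≤
          ENNReal.ofReal (C * (t⁻¹ / c) ^ (1 / ((m : ℝ) + 1))) := by
        refine le_trans ?_ (hsub g hg I hI c hc h t⁻¹ (inv_pos.2 ht0))
        rw [Measure.restrict_apply' hIm]
        refine measure_mono ?_
        rintro a ⟨ha, haI⟩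
        refine ⟨haI, ?_⟩
        simp only [mem_ofPred_eq] at ha
        rcases (abs_nonneg (g 0 a)).eq_or_lt with h3 | h3
        · rw [← h3]
          exact (inv_pos.2 ht0).le
        · exact ((lt_inv_comm₀ ht0 h3).1 ha).le
      refine (mul_le_mul' h2 le_rfl).trans (le_of_eq ?_)
      rw [← ENNReal.ofReal_mul (by positivity)]
      congr 1
      rw [← hq, div_eq_mul_inv, Real.mul_rpow (by positivity) (by positivity),
        Real.inv_rpow ht0.le, Real.inv_rpow hc.le, ← Real.rpow_neg ht0.le, ← Real.rpow_neg hc.le,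
        show θ - q - 1 = -q + (θ - 1) by ring, Real.rpow_add ht0]
      ring

end Pool.Agent.KS6_80.RC
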