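import Pool.Graph.R_pool_sql_team_seeded_47a924f7.T6.H16.RA.B5
import Pool.Graph.R_pool_sql_team_seeded_5cf16337.K3h58.BF.TransSteps
import Pool.Agent.KS6_80.RC.Snc

set_option autoImplicit false

/-! # Forms which are real and have a chamber with a mild boundary

Let `g` be a real form of degree `d` in `n` variables, and let `U` be a chamber of `g`: an open cone on
which `g > 0`, such that `g = 0` on the boundary. If all the points `x ≠ 0` of the boundary are mild
(`Mild`), then `-n/d` is a root of every `b` with `b(s) g ^ s = P(s) g ^ (s + 1)`. -/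

namespace Pool.Agent.KS6_80.RC

open MvPolynomial MeasureTheory Set Filter Topology Metric
open Pool.Agent.T6.H16.RA (rv cx Reg rv_cont)
open Pool.Agent.H628R4.TP (IsBFunction)

variable {n : ℕ}

/-- The point `x` is mild for the real polynomial `g`, the degree `d` and the set `U` on which `g > 0`:

* the multiplicity of `g` at `x` is at most `d/n` (a homogeneous component of degree `k ≤ d/n` of
  `g(x + y)` is not zero), or
* near `x` the hypersurface has normal crossings: `g = h ∏ F_i ^ (e_i)`, `h(x) ≠ 0`, the `F_i` vanish at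
  `x` and have independent gradients there, and `0 < e_i ≤ d/n`, or
* in general, `g ^ s` is integrable on `U ∩ V`, `V` a neighbourhood of `x`, for every real
  `s > -n/d`. -/
def Mild (g : MvPolynomial (Fin n) ℝ) (d : ℕ) (U : Set (Fin n → ℝ)) (x : Fin n → ℝ) : Prop :=
  (∃ k, n * k ≤ d ∧
    homogeneousComponent k (aeval (fun i => X i + C (x i)) g : MvPolynomial (Fin n) ℝ) ≠ 0) ∨
  (∃ (r : ℕ) (F : Fin r → MvPolynomial (Fin n) ℝ) (e : Fin r → ℕ) (h : MvPolynomial (Fin n) ℝ),
    g = h * ∏ i, F i ^ e i ∧ eval x h ≠ 0 ∧ (∀ i, eval x (F i) = 0) ∧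
    LinearIndependent ℝ (fun i j => eval x (pderiv j (F i))) ∧ ∀ i, 0 < e i ∧ n * e i ≤ d) ∨
  ∀ s : ℝ, -(n : ℝ) / d < s → ∃ V ∈ 𝓝 x, IntegrableOn (fun y => eval y g ^ s) (U ∩ V)

/-- `U` is a chamber of `g` with a mild boundary: `U` is an open cone with a point different from `0`,
`g > 0` on `U`, `g = 0` on the boundary of `U`, and the points `x ≠ 0` of the boundary are mild. -/
structure Chamber (g : MvPolynomial (Fin n) ℝ) (d : ℕ) (U : Set (Fin n → ℝ)) : Prop where
  op : IsOpen U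
  cone : ∀ x ∈ U, ∀ t : ℝ, 0 < t → t • x ∈ U
  ne : ∃ x ∈ U, x ≠ 0
  pos : ∀ x ∈ U, 0 < eval x g
  bd : ∀ x ∈ closure U, x ∉ U → eval x g = 0
  mild : ∀ x ∈ closure U, x ∉ U → x ≠ 0 → Mild g d U x

/-- The complex form `f` of degree `d` in `n` variables becomes in some linear coordinates, up to a
constant factor, a real form `g` which has a chamber with a mild boundary: `f(M x) = c g(x)` with an
invertible matrix `M` and `c ≠ 0`. -/
def HasChamber (f : MvPolynomial (Fin n) ℂ) (d : ℕ) : Prop :=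
  ∃ (M M' : Matrix (Fin n) (Fin n) ℂ) (c : ℂ) (g : MvPolynomial (Fin n) ℝ)
    (U : Set (Fin n → ℝ)), M * M' = 1 ∧ c ≠ 0 ∧ g.IsHomogeneous d ∧ Chamber g d U ∧
    aeval (fun j => ∑ k, C (M j k) * X k : Fin n → MvPolynomial (Fin n) ℂ) f =
      C c * map (algebraMap ℝ ℂ) g

theorem locInt_of_mild {g : MvPolynomial (Fin n) ℝ} {d : ℕ} {U : Set (Fin n → ℝ)} (hd : 0 < d)
    (hR : Reg g U) {x : Fin n → ℝ} (hx : Mild g d U x) : LocInt g U (-(n : ℝ) / d) x := by
  rcases hx with ⟨k, hk, hne⟩ | ⟨r, F, e, h, hg, hh, hF, hlin, he⟩ | h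
  · exact locInt_mult hd hR ⟨k, le_rfl, hne⟩ hk
  · exact locInt_snc hd hR F e h hg hh hF hlin (fun i => (he i).1) fun i => (he i).2
  · exact h

/-- **The root `-n/d` of a real form with a chamber with a mild boundary.** -/
theorem root_chamber {g : MvPolynomial (Fin n) ℝ} {d : ℕ} (hd : 0 < d) (hg : g.IsHomogeneous d)
    {U : Set (Fin n → ℝ)} (h : Chamber g d U) {b : Polynomial ℂ} (hb : IsBFunction (cx g) b) :
    b.eval (-(n : ℂ) / d) = 0 := by
  have hR : Reg g U := ⟨h.op, h.pos, h.bd⟩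
  exact root_cone hR h.cone hg hd h.ne
    (fun x hx hxU hx0 => locInt_of_mild hd hR (h.mild x hx hxU hx0)) hb

/-- **The root `-n/d`.** -/
theorem root_hasChamber {f : MvPolynomial (Fin n) ℂ} {d : ℕ} (hd : 0 < d) (h : HasChamber f d)
    {b : Polynomial ℂ} (hb : IsBFunction f b) : b.eval (-(n : ℂ) / d) = 0 := by
  obtain ⟨M, M', c, g, U, hM, hc, hg, hU, he⟩ := h
  have h1 := Pool.Agent.K3h58.BF2.t_Trans n M M' hM f b hb
  rw [he] at h1
  have h2 := Pool.Agent.T6.H16.RA.isBFunction_C_mul h1 (inv_ne_zero hc)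
  rw [← mul_assoc, ← C_mul, inv_mul_cancel₀ hc, C_1, one_mul] at h2
  exact root_chamber hd hg hU h2

theorem ne_zero_of_chamber {f : MvPolynomial (Fin n) ℂ} {d : ℕ} (h : HasChamber f d) : f ≠ 0 := by
  obtain ⟨M, M', c, g, U, hM, hc, hg, hU, he⟩ := h
  rintro rfl
  rw [map_zero] at he
  obtain ⟨x, hx, -⟩ := hU.ne
  have h1 := hU.pos x hx
  have h2 : map (algebraMap ℝ ℂ) g = 0 := by
    rcases mul_eq_zero.1 he.symm with h | h
    · exact absurd (C_eq_zero.1 h) hc
    · exact h
  have h3 : g = 0 := map_injective (algebraMap ℝ ℂ) (algebraMap ℝ ℂ).injective (by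
    rw [map_zero]
    exact h2)
  rw [h3, map_zero] at h1
  exact lt_irrefl _ h1

end Pool.Agent.KS6_80.RC
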