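import Pool.Agent.KS6_80.RC.Thm
import Pool.Agent.KS6_80.SN.Main
import Pool.Graph.R_seed8.W574.MO.Homog
import Pool.Graph.R_seed8.W574.SM.Reg

set_option autoImplicit false

/-! # Topological zeta functions of cones with normal crossings -/

namespace Pool.Agent.KS6_80.RC

open MvPolynomial Pool.Agent.W574.SM Pool.Agent.H628R4.TP
open Pool.Agent.KS6_80.SN (Snc root_k)

/-- `Z` is (of the form of) the local topological zeta function at the origin of `f = ∏ F_i ^ (n_i)`, a
form of degree `d` in `N` variables, where the hypersurfaces `F_i = 0` of the projective space are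
smooth and cross each other transversally: the blow-up of the origin is an embedded resolution, with
the exceptional divisor `E`, the projective space, with the numbers `(d, N)`, and the strict
transforms of the `F_i = 0`, with the numbers `(n_i, 1)`. So
`Z = ∑_I χ_I ∏_{i ∈ I} 1 / (n_i s + 1) / (d s + N)`, the sum over the sets `I` of indices, where `χ_I` is
the Euler characteristic of the set of the points of the projective space at which exactly the
`F_i`, `i ∈ I`, vanish. -/
def SncTopZeta {κ : Type} [Fintype κ] (N d : ℕ) (n : κ → ℕ) (Z : RatFunc ℂ) : Prop :=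
  ∃ χ : Finset κ → ℤ, Z = (∑ I : Finset κ, (χ I : RatFunc ℂ) * ∏ i ∈ I, fac (n i) 1) * fac d N

theorem snc_top {N : ℕ} {κ : Type} [Fintype κ] (hN : 2 ≤ N) (F : κ → MvPolynomial (Fin N) ℂ)
    (e n : κ → ℕ) (hF : ∀ i, (F i).IsHomogeneous (e i)) (he : ∀ i, 0 < e i)
    (hF0 : ∀ i, F i ≠ 0) (hS : Snc F) (d : ℕ) (hd : 0 < d) (b : Polynomial ℂ)
    (hb : IsBFunction (∏ i, F i ^ n i) b) (hr : b.eval (-(N : ℂ) / d) = 0) (Z : RatFunc ℂ)
    (hZ : SncTopZeta N d n Z) (s₀ : ℂ) (hs₀ : Z.denom.eval s₀ = 0) : b.eval s₀ = 0 := by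
  classical
  by_contra hne
  obtain ⟨χ, rfl⟩ := hZ
  apply Reg_denom s₀ _ ?_ hs₀
  have hdc : (d : ℂ) ≠ 0 := Nat.cast_ne_zero.2 hd.ne'
  refine (Pool.Agent.W574.SM.Reg s₀).mul_mem (Subring.sum_mem _ fun I _ =>
    (Pool.Agent.W574.SM.Reg s₀).mul_mem (intCast_mem _ _) (Subring.prod_mem _ fun i _ => ?_))
    (fac_mem d N s₀ ?_)
  · refine fac_mem (n i) 1 s₀ fun h0 => hne ?_
    have hn : n i ≠ 0 := by
      intro h
      rw [h] at h0
      simp at h0
    have hnc : (n i : ℂ) ≠ 0 := Nat.cast_ne_zero.2 hn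
    have h1 : s₀ = -((1 : ℕ) : ℂ) / n i := by
      rw [eq_div_iff hnc]
      linear_combination h0
    rw [h1]
    exact root_k hN F hS e n he hF hF0 b hb i hn
  · intro h0
    apply hne
    have h1 : s₀ = -(N : ℂ) / d := by
      rw [eq_div_iff hdc]
      linear_combination h0
    rw [h1]
    exact hr

theorem ne_zero_of_snc {m : ℕ} {κ : Type} (F : κ → MvPolynomial (Fin (m + 1)) ℂ) (hS : Snc F)
    (i : κ) : F i ≠ 0 := by
  intro hi
  have h1 : (fun _ : Fin (m + 1) => (1 : ℂ)) ≠ 0 := fun h => one_ne_zero (congrFun h 0)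
  have h2 : eval (fun _ : Fin (m + 1) => (1 : ℂ)) (F i) = 0 := by
    rw [hi, map_zero]
  refine (hS _ h1).ne_zero ⟨i, h2⟩ ?_
  funext j
  simp only [hi, map_zero, Pi.zero_apply]

end Pool.Agent.KS6_80.RC
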